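import Mathlib

/-! The arithmetic of `∑_{m ≤ n} (n / m)^s`. -/

namespace Pool.Agent.TH975.DZ

open Polynomial

/-- `∑_{m = 1}^n (n / m) ^ s` -/
def rs (s n : ℕ) : ℚ := ∑ m ∈ Finset.Icc 1 n, ((n : ℚ) / m) ^ s

/-- `∑_{1 ≤ m < n} (n / m) ^ s` -/
def rt (s n : ℕ) : ℚ := rs s n - 1

theorem norm_rs_sub {p : ℕ} [hp : Fact p.Prime] {s : ℕ} (hs : 1 ≤ s) (r : ℕ) :
    padicNorm p (rs s (p * r) - rs s r) ≤ (p : ℚ)⁻¹ := by
  have hp0 : 0 < p := hp.out.pos
  have hpq : (p : ℚ) ≠ 0 := by exact_mod_cast hp0.ne'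
  have h1 : rs s (p * r) = ∑ m ∈ (Finset.Icc 1 (p * r)).filter (fun m => p ∣ m),
      (((p * r : ℕ) : ℚ) / m) ^ s + ∑ m ∈ (Finset.Icc 1 (p * r)).filter (fun m => ¬ p ∣ m),
      (((p * r : ℕ) : ℚ) / m) ^ s := by
    unfold rs
    rw [Finset.sum_filter_add_sum_filter_not]
  have h2 : ∑ m ∈ (Finset.Icc 1 (p * r)).filter (fun m => p ∣ m),
      (((p * r : ℕ) : ℚ) / m) ^ s = rs s r := by
    unfold rs
    symm
    apply Finset.sum_nbij (fun j => p * j)
    · intro j hj
      rw [Finset.mem_Icc] at hj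
      rw [Finset.mem_filter, Finset.mem_Icc]
      refine ⟨⟨Nat.mul_pos hp0 hj.1, Nat.mul_le_mul_left _ hj.2⟩, Nat.dvd_mul_right _ _⟩
    · intro a _ b _ hab
      exact Nat.eq_of_mul_eq_mul_left hp0 hab
    · intro m hm
      rw [Finset.mem_coe, Finset.mem_filter, Finset.mem_Icc] at hm
      obtain ⟨⟨hm1, hm2⟩, j, rfl⟩ := hm
      refine ⟨j, ?_, rfl⟩
      rw [Finset.mem_coe, Finset.mem_Icc]
      refine ⟨Nat.pos_of_mul_pos_left hm1, Nat.le_of_mul_le_mul_left hm2 hp0⟩
    · intro j _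
      congr 1
      push_cast
      rw [mul_div_mul_left _ _ hpq]
  rw [h1, h2, add_sub_cancel_left]
  apply padicNorm.sum_le' _ (by positivity)
  intro m hm
  rw [Finset.mem_filter] at hm
  have h3 : padicNorm p (m : ℚ) = 1 := (padicNorm.nat_eq_one_iff m).2 hm.2
  have h4 : padicNorm p (((p * r : ℕ) : ℚ) / m) ≤ (p : ℚ)⁻¹ := by
    rw [padicNorm.div, h3, div_one]
    push_cast
    rw [padicNorm.mul, padicNorm.padicNorm_p_of_prime]
    exact mul_le_of_le_one_right (by positivity) (padicNorm.of_nat r)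
  have h5 : ∀ (x : ℚ) (n : ℕ), padicNorm p (x ^ n) = padicNorm p x ^ n := by
    intro x n
    induction n with
    | zero => simp
    | succ n ih => rw [pow_succ, padicNorm.mul, ih, pow_succ]
  rw [h5]
  have h6 : (p : ℚ)⁻¹ ≤ 1 := inv_le_one_of_one_le₀ (by exact_mod_cast hp0)
  have h0 : 0 ≤ padicNorm p (((p * r : ℕ) : ℚ) / m) := padicNorm.nonneg _
  calc padicNorm p (((p * r : ℕ) : ℚ) / m) ^ s ≤ padicNorm p (((p * r : ℕ) : ℚ) / m) ^ 1 :=
        pow_le_pow_of_le_one h0 (h4.trans h6) hs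
    _ ≤ _ := by rw [pow_one]; exact h4

/-- for a given rational number `x`, `|x|_p ≤ 1` for large `p` -/
theorem norm_le_one (x : ℚ) : ∃ N : ℕ, ∀ p : ℕ, p.Prime → N < p → padicNorm p x ≤ 1 := by
  refine ⟨x.den, fun p hp hN => ?_⟩
  have : Fact p.Prime := ⟨hp⟩
  have h3 : padicNorm p (x.den : ℚ) = 1 := (padicNorm.nat_eq_one_iff _).2 (fun h =>
    absurd (Nat.le_of_dvd x.den_pos h) (by omega))
  conv_lhs => rw [← Rat.num_div_den x]
  rw [padicNorm.div, h3, div_one]
  exact padicNorm.of_int _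

/-- if `|x|_p < 1` for arbitrarily large `p` then `x = 0` -/
theorem eq_zero_of_norm {x : ℚ} (h : ∀ N : ℕ, ∃ p : ℕ, p.Prime ∧ N < p ∧ padicNorm p x < 1) :
    x = 0 := by
  by_contra hx
  obtain ⟨p, hp, hN, hlt⟩ := h (x.num.natAbs + x.den)
  have : Fact p.Prime := ⟨hp⟩
  have h3 : padicNorm p (x.den : ℚ) = 1 := (padicNorm.nat_eq_one_iff _).2 (fun h =>
    absurd (Nat.le_of_dvd x.den_pos h) (by omega))
  have h4 : padicNorm p (x.num : ℚ) = 1 := (padicNorm.int_eq_one_iff _).2 (fun h => by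
    have h5 : p ∣ x.num.natAbs := Int.natCast_dvd.1 h
    have h6 : 0 < x.num.natAbs := Int.natAbs_pos.2 (Rat.num_ne_zero.2 hx)
    exact absurd (Nat.le_of_dvd h6 h5) (by omega))
  have h5 : padicNorm p x = 1 := by
    conv_lhs => rw [← Rat.num_div_den x]
    rw [padicNorm.div, h3, h4, div_one]
  linarith

theorem rt_succ (s n : ℕ) : rt s (n + 1) = ∑ m ∈ Finset.Icc 1 n, (((n + 1 : ℕ) : ℚ) / m) ^ s := by
  unfold rt rs
  rw [Finset.sum_Icc_succ_top (by omega)]
  have h : (((n + 1 : ℕ) : ℚ) / ((n + 1 : ℕ) : ℚ)) = 1 := div_self (by positivity)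
  rw [h, one_pow, add_sub_cancel_right]

theorem rt_lower (s n : ℕ) (hn : 1 ≤ n) : ((n + 1 : ℕ) : ℚ) ^ s ≤ rt s (n + 1) := by
  rw [rt_succ]
  have h := Finset.single_le_sum (f := fun m : ℕ => (((n + 1 : ℕ) : ℚ) / m) ^ s)
    (fun i _ => by positivity) (Finset.mem_Icc.2 ⟨le_rfl, hn⟩)
  simpa using h

theorem rt_nonneg (s n : ℕ) : 0 ≤ rt s (n + 1) := by
  rw [rt_succ]
  apply Finset.sum_nonneg
  intro m _
  positivity

theorem rt_upper (s n : ℕ) : rt s (n + 1) ≤ ((n + 1 : ℕ) : ℚ) ^ (s + 1) := by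
  rw [rt_succ]
  have h1 : ∀ m ∈ Finset.Icc 1 n, (((n + 1 : ℕ) : ℚ) / m) ^ s ≤ ((n + 1 : ℕ) : ℚ) ^ s := by
    intro m hm
    rw [Finset.mem_Icc] at hm
    apply pow_le_pow_left₀ (by positivity)
    apply div_le_self (by positivity)
    exact_mod_cast hm.1
  refine (Finset.sum_le_sum h1).trans ?_
  rw [Finset.sum_const, Nat.card_Icc, nsmul_eq_mul, pow_succ, mul_comm]
  apply mul_le_mul_of_nonneg_left _ (by positivity)
  exact_mod_cast (by omega : n + 1 - 1 ≤ n + 1)

/-- the tails are independent -/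
theorem tails_indep : ∀ (B : ℕ) (d : ℕ → ℚ),
    (∀ n : ℕ, 1 ≤ n → ∑ b ∈ Finset.range B, d b * rt (2 * b + 1) n = 0) → ∀ b < B, d b = 0 := by
  intro B
  induction B with
  | zero => intro d _ b hb; omega
  | succ B ih =>
    intro d h
    have hB : d B = 0 := by
      by_contra hne
      have hpos : 0 < |d B| := abs_pos.2 hne
      obtain ⟨n, hn⟩ := exists_nat_gt ((∑ b ∈ Finset.range B, |d b|) / |d B|)
      rw [div_lt_iff₀ hpos] at hn
      have h1 := h (n + 1 + 1) (by omega)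
      rw [Finset.sum_range_succ] at h1
      have h2 : d B * rt (2 * B + 1) (n + 1 + 1) =
          - ∑ b ∈ Finset.range B, d b * rt (2 * b + 1) (n + 1 + 1) := by linarith
      have h3 : |d B| * ((n + 1 + 1 : ℕ) : ℚ) ^ (2 * B + 1) ≤
          (∑ b ∈ Finset.range B, |d b|) * ((n + 1 + 1 : ℕ) : ℚ) ^ (2 * B) := by
        calc |d B| * ((n + 1 + 1 : ℕ) : ℚ) ^ (2 * B + 1)
            ≤ |d B| * rt (2 * B + 1) (n + 1 + 1) :=
              mul_le_mul_of_nonneg_left (rt_lower _ _ (by omega)) (abs_nonneg _)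
          _ = |d B * rt (2 * B + 1) (n + 1 + 1)| := by
              rw [abs_mul, abs_of_nonneg (rt_nonneg (2 * B + 1) (n + 1))]
          _ = |∑ b ∈ Finset.range B, d b * rt (2 * b + 1) (n + 1 + 1)| := by rw [h2, abs_neg]
          _ ≤ ∑ b ∈ Finset.range B, |d b * rt (2 * b + 1) (n + 1 + 1)| :=
              Finset.abs_sum_le_sum_abs _ _
          _ ≤ ∑ b ∈ Finset.range B, |d b| * ((n + 1 + 1 : ℕ) : ℚ) ^ (2 * B) := by
              apply Finset.sum_le_sum
              intro b hb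
              rw [Finset.mem_range] at hb
              rw [abs_mul, abs_of_nonneg (rt_nonneg (2 * b + 1) (n + 1))]
              apply mul_le_mul_of_nonneg_left _ (abs_nonneg _)
              refine (rt_upper _ _).trans ?_
              apply pow_le_pow_right₀ _ (by omega)
              exact_mod_cast (by omega : 1 ≤ n + 1 + 1)
          _ = _ := by rw [← Finset.sum_mul]
      rw [pow_succ, ← mul_assoc, mul_right_comm] at h3
      have h4 : (0 : ℚ) < ((n + 1 + 1 : ℕ) : ℚ) ^ (2 * B) := by positivity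
      have h5 := le_of_mul_le_mul_right h3 h4
      have h6 : |d B| * (n : ℚ) ≤ |d B| * ((n + 1 + 1 : ℕ) : ℚ) := by
        apply mul_le_mul_of_nonneg_left _ hpos.le
        exact_mod_cast (by omega : n ≤ n + 1 + 1)
      have h7 : (n : ℚ) * |d B| = |d B| * n := mul_comm _ _
      linarith
    intro b hb
    rcases Nat.lt_succ_iff_lt_or_eq.1 hb with h1 | h1
    · exact ih d (fun n hn => by
        have h2 := h n hn
        rw [Finset.sum_range_succ, hB, zero_mul, add_zero] at h2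
        exact h2) b h1
    · rw [h1]; exact hB

/-- the heads are independent modulo the tails -/
theorem heads_indep (A B : ℕ) (c d : ℕ → ℚ) (e : ℚ) (γ : ℕ → ℝ)
    (h : ∀ n : ℕ, 1 ≤ n → ∑ a ∈ Finset.range A, γ a * (n : ℝ) ^ (2 * a + 3) =
      ((∑ a ∈ Finset.range A, c a * rs (2 * a + 3) n -
        ∑ b ∈ Finset.range B, d b * rt (2 * b + 1) n - e : ℚ) : ℝ)) : ∀ a < A, γ a = 0 := by
  classical
  set R : ℕ → ℚ := fun n => ∑ a ∈ Finset.range A, c a * rs (2 * a + 3) n -
        ∑ b ∈ Finset.range B, d b * rt (2 * b + 1) n - e with hR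
  obtain ⟨f, hf⟩ : ∃ f : ℝ →ₗ[ℚ] ℚ, ∀ q : ℚ, f (q : ℝ) = q := by
    have hinj : LinearMap.ker (LinearMap.toSpanSingleton ℚ ℝ 1) = ⊥ := by
      rw [LinearMap.ker_toSpanSingleton]
      exact one_ne_zero
    obtain ⟨g, hg⟩ := LinearMap.exists_leftInverse_of_injective _ hinj
    refine ⟨g, fun q => ?_⟩
    have h1 := LinearMap.congr_fun hg q
    simp only [LinearMap.comp_apply, LinearMap.toSpanSingleton_apply, LinearMap.id_apply] at h1
    rw [Rat.smul_one_eq_cast] at h1
    exact h1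
  have h1 : ∀ n : ℕ, 1 ≤ n → ∑ a ∈ Finset.range A, f (γ a) * (n : ℚ) ^ (2 * a + 3) = R n := by
    intro n hn
    have h2 := congrArg f (h n hn)
    rw [hf, map_sum] at h2
    refine Eq.trans ?_ h2
    apply Finset.sum_congr rfl
    intro a _
    have h3 : γ a * (n : ℝ) ^ (2 * a + 3) = ((n : ℚ) ^ (2 * a + 3)) • γ a := by
      rw [Rat.smul_def]
      push_cast
      ring
    rw [h3, map_smul, smul_eq_mul, mul_comm]
  choose thr hthr using norm_le_one
  have h2 : ∀ r : ℕ, 1 ≤ r → R r = 0 := by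
    intro r hr
    apply eq_zero_of_norm
    intro N
    obtain ⟨p, hpN, hp⟩ := Nat.exists_infinite_primes (N +
      ∑ a ∈ Finset.range A, (thr (c a) + thr (f (γ a))) + ∑ b ∈ Finset.range B, thr (d b) + 1)
    have : Fact p.Prime := ⟨hp⟩
    have hp0 : 0 < p := hp.pos
    have hcN : ∀ a ∈ Finset.range A, thr (c a) < p ∧ thr (f (γ a)) < p := by
      intro a ha
      have := Finset.single_le_sum (f := fun a => thr (c a) + thr (f (γ a)))
        (fun _ _ => Nat.zero_le _) ha
      constructor <;> omega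
    have hdN : ∀ b ∈ Finset.range B, thr (d b) < p := by
      intro b hb
      have := Finset.single_le_sum (f := fun b => thr (d b)) (fun _ _ => Nat.zero_le _) hb
      omega
    refine ⟨p, hp, by omega, ?_⟩
    have e1 : padicNorm p (R (p * r)) ≤ (p : ℚ)⁻¹ := by
      rw [← h1 (p * r) (Nat.mul_pos hp0 hr)]
      apply padicNorm.sum_le' _ (by positivity)
      intro a ha
      rw [padicNorm.mul]
      have h5 : padicNorm p (((p * r : ℕ) : ℚ) ^ (2 * a + 3)) ≤ (p : ℚ)⁻¹ := by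
        have h6 : ((p * r : ℕ) : ℚ) ^ (2 * a + 3) = (p : ℚ) * ((p ^ (2 * a + 2) *
            r ^ (2 * a + 3) : ℕ) : ℚ) := by
          push_cast; ring
        rw [h6, padicNorm.mul, padicNorm.padicNorm_p_of_prime]
        exact mul_le_of_le_one_right (by positivity) (padicNorm.of_nat _)
      calc _ ≤ 1 * (p : ℚ)⁻¹ := mul_le_mul (hthr _ p hp (hcN a ha).2) h5 (padicNorm.nonneg _)
              (by norm_num)
        _ = _ := one_mul _
    have e2 : padicNorm p (R (p * r) - R r) ≤ (p : ℚ)⁻¹ := by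
      have h3 : R (p * r) - R r = ∑ a ∈ Finset.range A, c a * (rs (2 * a + 3) (p * r) -
          rs (2 * a + 3) r) - ∑ b ∈ Finset.range B, d b * (rs (2 * b + 1) (p * r) -
          rs (2 * b + 1) r) := by
        rw [hR]
        simp only [rt, mul_sub, Finset.sum_sub_distrib]
        ring
      rw [h3]
      refine padicNorm.sub.trans (max_le ?_ ?_)
      · apply padicNorm.sum_le' _ (by positivity)
        intro a ha
        rw [padicNorm.mul]
        calc _ ≤ 1 * (p : ℚ)⁻¹ := mul_le_mul (hthr _ p hp (hcN a ha).1)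
              (norm_rs_sub (by omega) r) (padicNorm.nonneg _) (by norm_num)
          _ = _ := one_mul _
      · apply padicNorm.sum_le' _ (by positivity)
        intro b hb
        rw [padicNorm.mul]
        calc _ ≤ 1 * (p : ℚ)⁻¹ := mul_le_mul (hthr _ p hp (hdN b hb))
              (norm_rs_sub (by omega) r) (padicNorm.nonneg _) (by norm_num)
          _ = _ := one_mul _
    have e3 : R r = R (p * r) - (R (p * r) - R r) := by ring
    rw [e3]
    refine lt_of_le_of_lt (padicNorm.sub.trans (max_le e1 e2)) ?_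
    exact inv_lt_one_of_one_lt₀ (by exact_mod_cast hp.one_lt)
  have h3 : (∑ a ∈ Finset.range A, Polynomial.C (γ a) * X ^ (2 * a + 3) : ℝ[X]) = 0 := by
    apply Polynomial.eq_zero_of_infinite_isRoot
    apply Set.Infinite.mono (s := Set.range (fun n : ℕ => ((n + 1 : ℕ) : ℝ)))
    · rintro _ ⟨n, rfl⟩
      show Polynomial.IsRoot _ _
      rw [Polynomial.IsRoot.def, eval_finsetSum]
      simp only [eval_mul, eval_C, eval_pow, eval_X]
      rw [h (n + 1) (by omega)]
      have := h2 (n + 1) (by omega)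
      rw [hR] at this
      simp only at this
      rw [this]; norm_num
    · apply Set.infinite_range_of_injective
      intro a b hab
      simp only [Nat.cast_inj] at hab
      omega
  intro a ha
  have h4 := congrArg (fun q : ℝ[X] => q.coeff (2 * a + 3)) h3
  simp only [finsetSum_coeff, coeff_C_mul, coeff_X_pow, coeff_zero] at h4
  rw [Finset.sum_eq_single a] at h4
  · simpa using h4
  · intro b _ hb
    rw [if_neg (by omega), mul_zero]
  · intro h5
    exact absurd (Finset.mem_range.2 ha) h5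

end Pool.Agent.TH975.DZ
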