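import Mathlib

/-! A Dirichlet series with a nonzero coefficient is not too small at large integers. -/

namespace Pool.Agent.TH975.DZ

open Filter Topology

theorem summable_sq : Summable (fun n : ℕ => (1 : ℝ) / ((n : ℝ) + 1) ^ 2) := by
  have h := (summable_nat_add_iff 1).2 (Real.summable_one_div_nat_pow.2 (by norm_num : 1 < 2))
  refine h.congr (fun n => ?_)
  push_cast; rfl

theorem lead_tendsto (G : ℕ → ℝ) (C : ℝ) (E : ℕ) (hG : ∀ n, |G n| ≤ C * ((n : ℝ) + 1) ^ E)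
    (n1 : ℕ) (h0 : ∀ n < n1, G n = 0) :
    Tendsto (fun k : ℕ => ∑' n : ℕ, G n * (((n1 : ℝ) + 1) / ((n : ℝ) + 1)) ^ k) atTop (𝓝 (G n1)) := by
  have hC : 0 ≤ C := by
    have := (abs_nonneg _).trans (hG 0)
    simpa using this
  have h1 : ∑' n : ℕ, (if n = n1 then G n1 else 0) = G n1 := by
    rw [tsum_eq_single n1]
    · simp
    · intro n hn; simp [hn]
  rw [← h1]
  refine tendsto_tsum_of_dominated_convergence
    (bound := fun n : ℕ => C * ((n1 : ℝ) + 1) ^ (E + 2) * ((1 : ℝ) / ((n : ℝ) + 1) ^ 2))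
    (summable_sq.mul_left _) ?_ ?_
  · intro n
    rcases lt_trichotomy n n1 with h | h | h
    · rw [if_neg h.ne, h0 n h]; simp
    · subst h
      have h2 : ((n : ℝ) + 1) / ((n : ℝ) + 1) = 1 := div_self (by positivity)
      simp [h2]
    · rw [if_neg h.ne']
      have h2 : Tendsto (fun k : ℕ => (((n1 : ℝ) + 1) / ((n : ℝ) + 1)) ^ k) atTop (𝓝 0) := by
        apply tendsto_pow_atTop_nhds_zero_of_lt_one (by positivity)
        rw [div_lt_one (by positivity)]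
        have : (n1 : ℝ) < n := by exact_mod_cast h
        linarith
      simpa using h2.const_mul (G n)
  · filter_upwards [eventually_ge_atTop (E + 2)] with k hk n
    rw [Real.norm_eq_abs, abs_mul, abs_of_nonneg (by positivity : (0:ℝ) ≤ (((n1 : ℝ) + 1) / ((n : ℝ) + 1)) ^ k)]
    by_cases h : n < n1
    · rw [h0 n h]; simp; positivity
    · push Not at h
      have h3 : (((n1 : ℝ) + 1) / ((n : ℝ) + 1)) ^ k ≤ (((n1 : ℝ) + 1) / ((n : ℝ) + 1)) ^ (E + 2) := by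
        apply pow_le_pow_of_le_one (by positivity) _ hk
        rw [div_le_one (by positivity)]
        have : (n1 : ℝ) ≤ n := by exact_mod_cast h
        linarith
      calc |G n| * (((n1 : ℝ) + 1) / ((n : ℝ) + 1)) ^ k
          ≤ (C * ((n : ℝ) + 1) ^ E) * (((n1 : ℝ) + 1) / ((n : ℝ) + 1)) ^ (E + 2) := by
            apply mul_le_mul (hG n) h3 (by positivity) (by positivity)
        _ = C * ((n1 : ℝ) + 1) ^ (E + 2) * ((1 : ℝ) / ((n : ℝ) + 1) ^ 2) := by
            rw [div_pow]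
            field_simp
            ring

theorem lead_lower (G : ℕ → ℝ) (C : ℝ) (E : ℕ) (hG : ∀ n, |G n| ≤ C * ((n : ℝ) + 1) ^ E)
    (h : ∃ n, G n ≠ 0) : ∃ D : ℝ, 1 < D ∧ ∀ᶠ k : ℕ in atTop,
      D⁻¹ ^ k < |∑' n : ℕ, G n / ((n : ℝ) + 1) ^ k| := by
  classical
  set n1 := Nat.find h with hn1
  have h1 : G n1 ≠ 0 := Nat.find_spec h
  have h0 : ∀ n < n1, G n = 0 := fun n hn => by
    by_contra h2
    exact Nat.find_min h hn h2
  have ht := (lead_tendsto G C E hG n1 h0).abs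
  refine ⟨(n1 : ℝ) + 2, by have : (0:ℝ) ≤ n1 := Nat.cast_nonneg _; linarith, ?_⟩
  have h2 : ∀ᶠ k : ℕ in atTop, |G n1| / 2 <
      |∑' n : ℕ, G n * (((n1 : ℝ) + 1) / ((n : ℝ) + 1)) ^ k| :=
    ht.eventually (lt_mem_nhds (by have := abs_pos.2 h1; linarith))
  have h3 : Tendsto (fun k : ℕ => (((n1 : ℝ) + 1) / ((n1 : ℝ) + 2)) ^ k) atTop (𝓝 0) := by
    apply tendsto_pow_atTop_nhds_zero_of_lt_one (by positivity)
    rw [div_lt_one (by positivity)]
    linarith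
  have h4 : ∀ᶠ k : ℕ in atTop, (((n1 : ℝ) + 1) / ((n1 : ℝ) + 2)) ^ k < |G n1| / 2 :=
    h3.eventually (gt_mem_nhds (by have := abs_pos.2 h1; linarith))
  filter_upwards [h2, h4] with k hk1 hk2
  have h5 : ∑' n : ℕ, G n * (((n1 : ℝ) + 1) / ((n : ℝ) + 1)) ^ k =
      ((n1 : ℝ) + 1) ^ k * ∑' n : ℕ, G n / ((n : ℝ) + 1) ^ k := by
    rw [← tsum_mul_left]
    congr 1
    funext n
    rw [div_pow]; ring
  rw [h5, abs_mul, abs_of_nonneg (by positivity : (0:ℝ) ≤ ((n1 : ℝ) + 1) ^ k)] at hk1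
  have h6 := hk2.trans hk1
  rw [div_pow, div_eq_mul_inv] at h6
  have h7 : (0 : ℝ) < ((n1 : ℝ) + 1) ^ k := by positivity
  rw [inv_pow]
  exact lt_of_mul_lt_mul_left h6 h7.le

end Pool.Agent.TH975.DZ
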