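import Pool.Agent.TH975.DZ.Series
import Pool.Agent.TH975.DZ.Alg

/-! Linear forms in double zeta values with both arguments odd, near both ends. -/

namespace Pool.Agent.TH975.DZ

open Filter Topology

theorem hh_nonneg (s N : ℕ) : 0 ≤ hh s N := Finset.sum_nonneg fun _ _ => by positivity

theorem hh_le_Z {s : ℕ} (hs : 2 ≤ s) (N : ℕ) : hh s N ≤ Z s :=
  (summable_Z hs).sum_le_tsum _ (fun _ _ => by positivity)

theorem Z_pos {s : ℕ} (hs : 2 ≤ s) : 0 < Z s := by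
  have h := hh_le_Z hs 1
  have h1 : hh s 1 = 1 := by simp [hh]
  linarith

theorem hh_le (s N : ℕ) : hh s N ≤ N := by
  unfold hh
  have h1 : ∀ m ∈ Finset.range N, (1 : ℝ) / ((m : ℝ) + 1) ^ s ≤ 1 := by
    intro m _
    apply div_le_one_of_le₀ _ (by positivity)
    exact one_le_pow₀ (by have : (0 : ℝ) ≤ m := Nat.cast_nonneg _; linarith)
  refine (Finset.sum_le_sum h1).trans ?_
  simp

theorem cast_sum (x : ℚ) (s N : ℕ) : ((∑ m ∈ Finset.Icc 1 N, (x / m) ^ s : ℚ) : ℝ) =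
    (x : ℝ) ^ s * hh s N := by
  induction N with
  | zero => simp [hh]
  | succ N ih =>
    rw [Finset.sum_Icc_succ_top (by omega)]
    unfold hh at ih ⊢
    rw [Finset.sum_range_succ, mul_add, ← ih]
    push_cast
    rw [div_pow]
    ring

theorem cast_rs (s n : ℕ) : ((rs s (n + 1) : ℚ) : ℝ) = ((n : ℝ) + 1) ^ s * hh s (n + 1) := by
  unfold rs
  rw [cast_sum]
  push_cast
  rfl

theorem cast_rt (s n : ℕ) : ((rt s (n + 1) : ℚ) : ℝ) = ((n : ℝ) + 1) ^ s * hh s n := by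
  rw [rt_succ, cast_sum]
  push_cast
  rfl

/-- the linear form -/
noncomputable def S (A B : ℕ) (c d : ℕ → ℚ) (e : ℚ) (k : ℕ) : ℝ :=
  ∑ a ∈ Finset.range A, (c a : ℝ) * dz (2 * a + 3) (k - (2 * a + 3)) +
    ∑ b ∈ Finset.range B, (d b : ℝ) * dz (k - (2 * b + 1)) (2 * b + 1) + (e : ℝ) * Z k

/-- its Dirichlet coefficients -/
noncomputable def G (A B : ℕ) (c d : ℕ → ℚ) (e : ℚ) (n : ℕ) : ℝ :=
  ∑ a ∈ Finset.range A, (c a : ℝ) * (((n : ℝ) + 1) ^ (2 * a + 3) * (Z (2 * a + 3) -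
    hh (2 * a + 3) (n + 1))) +
    ∑ b ∈ Finset.range B, (d b : ℝ) * (((n : ℝ) + 1) ^ (2 * b + 1) * hh (2 * b + 1) n) + (e : ℝ)

theorem pow_div_aux (n s k : ℕ) (x : ℝ) (h : s ≤ k) :
    ((n : ℝ) + 1) ^ s * x / ((n : ℝ) + 1) ^ k = x / ((n : ℝ) + 1) ^ (k - s) := by
  have h1 : ((n : ℝ) + 1) ^ k = ((n : ℝ) + 1) ^ s * ((n : ℝ) + 1) ^ (k - s) := by
    rw [← pow_add]; congr 1; omega
  rw [h1, mul_div_mul_left _ _ (by positivity)]

theorem hasSum_S (A B : ℕ) (c d : ℕ → ℚ) (e : ℚ) {k : ℕ} (hk : 2 * A + 2 * B + 10 ≤ k) :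
    HasSum (fun n : ℕ => G A B c d e n / ((n : ℝ) + 1) ^ k) (S A B c d e k) := by
  have h1 : ∀ a ∈ Finset.range A, HasSum (fun n : ℕ => (c a : ℝ) *
      ((((n : ℝ) + 1) ^ (2 * a + 3) * (Z (2 * a + 3) - hh (2 * a + 3) (n + 1))) /
        ((n : ℝ) + 1) ^ k)) ((c a : ℝ) * dz (2 * a + 3) (k - (2 * a + 3))) := by
    intro a ha
    rw [Finset.mem_range] at ha
    have h := (dz_head (s := 2 * a + 3) (t := k - (2 * a + 3)) (by omega) (by omega)).mul_left
      (c a : ℝ)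
    simpa only [pow_div_aux _ _ _ _ (by omega : 2 * a + 3 ≤ k)] using h
  have h2 : ∀ b ∈ Finset.range B, HasSum (fun n : ℕ => (d b : ℝ) *
      ((((n : ℝ) + 1) ^ (2 * b + 1) * hh (2 * b + 1) n) /
        ((n : ℝ) + 1) ^ k)) ((d b : ℝ) * dz (k - (2 * b + 1)) (2 * b + 1)) := by
    intro b hb
    rw [Finset.mem_range] at hb
    have h := (dz_tail (s := k - (2 * b + 1)) (t := 2 * b + 1) (by omega)).mul_left (d b : ℝ)
    simpa only [pow_div_aux _ _ _ _ (by omega : 2 * b + 1 ≤ k)] using h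
  have h0 : HasSum (fun n : ℕ => (e : ℝ) * ((1 : ℝ) / ((n : ℝ) + 1) ^ k)) ((e : ℝ) * Z k) :=
    (summable_Z (by omega)).hasSum.mul_left _
  have h3 := ((hasSum_sum h1).add (hasSum_sum h2)).add h0
  unfold S
  convert h3 using 2 with n
  unfold G
  rw [add_div, add_div, Finset.sum_div, Finset.sum_div]
  congr 1
  · congr 1
    · apply Finset.sum_congr rfl
      intro a _
      rw [mul_div_assoc]
    · apply Finset.sum_congr rfl
      intro b _
      rw [mul_div_assoc]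
  · ring

theorem G_bound (A B : ℕ) (c d : ℕ → ℚ) (e : ℚ) (n : ℕ) : |G A B c d e n| ≤
    (∑ a ∈ Finset.range A, |(c a : ℝ)| * Z (2 * a + 3) + ∑ b ∈ Finset.range B, |(d b : ℝ)| +
      |(e : ℝ)|) *
      ((n : ℝ) + 1) ^ (2 * A + 2 * B + 5) := by
  have hn : (1 : ℝ) ≤ (n : ℝ) + 1 := by have : (0 : ℝ) ≤ n := Nat.cast_nonneg _; linarith
  have h1 : |∑ a ∈ Finset.range A, (c a : ℝ) * (((n : ℝ) + 1) ^ (2 * a + 3) * (Z (2 * a + 3) -
      hh (2 * a + 3) (n + 1)))| ≤ (∑ a ∈ Finset.range A, |(c a : ℝ)| * Z (2 * a + 3)) *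
      ((n : ℝ) + 1) ^ (2 * A + 2 * B + 5) := by
    refine (Finset.abs_sum_le_sum_abs _ _).trans ?_
    rw [Finset.sum_mul]
    apply Finset.sum_le_sum
    intro a ha
    rw [Finset.mem_range] at ha
    have e1 := hh_le_Z (s := 2 * a + 3) (by omega) (n + 1)
    have e2 := hh_nonneg (2 * a + 3) (n + 1)
    have e3 : 0 ≤ ((n : ℝ) + 1) ^ (2 * a + 3) * (Z (2 * a + 3) - hh (2 * a + 3) (n + 1)) :=
      mul_nonneg (by positivity) (by linarith)
    rw [abs_mul, abs_of_nonneg e3, mul_assoc]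
    apply mul_le_mul_of_nonneg_left _ (abs_nonneg _)
    rw [mul_comm]
    refine mul_le_mul ?_ ?_ ?_ ?_
    · linarith
    · exact pow_le_pow_right₀ hn (by omega)
    · positivity
    · linarith
  have h2 : |∑ b ∈ Finset.range B, (d b : ℝ) * (((n : ℝ) + 1) ^ (2 * b + 1) *
      hh (2 * b + 1) n)| ≤ (∑ b ∈ Finset.range B, |(d b : ℝ)|) *
      ((n : ℝ) + 1) ^ (2 * A + 2 * B + 5) := by
    refine (Finset.abs_sum_le_sum_abs _ _).trans ?_
    rw [Finset.sum_mul]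
    apply Finset.sum_le_sum
    intro b hb
    rw [Finset.mem_range] at hb
    have e1 := hh_le (2 * b + 1) n
    have e2 := hh_nonneg (2 * b + 1) n
    rw [abs_mul, abs_of_nonneg (mul_nonneg (by positivity) e2)]
    apply mul_le_mul_of_nonneg_left _ (abs_nonneg _)
    calc ((n : ℝ) + 1) ^ (2 * b + 1) * hh (2 * b + 1) n
        ≤ ((n : ℝ) + 1) ^ (2 * b + 1) * ((n : ℝ) + 1) :=
          mul_le_mul_of_nonneg_left (by linarith) (by positivity)
      _ = ((n : ℝ) + 1) ^ (2 * b + 2) := by ring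
      _ ≤ _ := pow_le_pow_right₀ hn (by omega)
  have h3 : |(e : ℝ)| ≤ |(e : ℝ)| * ((n : ℝ) + 1) ^ (2 * A + 2 * B + 5) :=
    le_mul_of_one_le_right (abs_nonneg _) (one_le_pow₀ hn)
  unfold G
  refine (abs_add_le _ _).trans ?_
  rw [add_mul, add_mul]
  exact add_le_add ((abs_add_le _ _).trans (add_le_add h1 h2)) h3

theorem G_ne (A B : ℕ) (c d : ℕ → ℚ) (e : ℚ) (h : ∀ n, G A B c d e n = 0) :
    (∀ a < A, c a = 0) ∧ (∀ b < B, d b = 0) ∧ e = 0 := by
  have key : ∀ n : ℕ, 1 ≤ n → ∑ a ∈ Finset.range A, ((c a : ℝ) * Z (2 * a + 3)) *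
      (n : ℝ) ^ (2 * a + 3) = ((∑ a ∈ Finset.range A, c a * rs (2 * a + 3) n -
        ∑ b ∈ Finset.range B, d b * rt (2 * b + 1) n - e : ℚ) : ℝ) := by
    intro n hn
    obtain ⟨n, rfl⟩ : ∃ m, n = m + 1 := ⟨n - 1, by omega⟩
    have h1 := h n
    unfold G at h1
    push_cast
    simp only [cast_rs, cast_rt]
    have e1 : ∑ a ∈ Finset.range A, (c a : ℝ) * (((n : ℝ) + 1) ^ (2 * a + 3) * (Z (2 * a + 3) -
        hh (2 * a + 3) (n + 1))) = ∑ a ∈ Finset.range A, ((c a : ℝ) * Z (2 * a + 3)) *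
        ((n : ℝ) + 1) ^ (2 * a + 3) - ∑ a ∈ Finset.range A, (c a : ℝ) *
        (((n : ℝ) + 1) ^ (2 * a + 3) * hh (2 * a + 3) (n + 1)) := by
      rw [← Finset.sum_sub_distrib]
      apply Finset.sum_congr rfl
      intro a _
      ring
    rw [e1] at h1
    linarith
  have h1 : ∀ a < A, c a = 0 := by
    intro a ha
    have h2 := heads_indep A B c d e _ key a ha
    have h3 := (Z_pos (s := 2 * a + 3) (by omega)).ne'
    have h4 : (c a : ℝ) = 0 := by
      rcases mul_eq_zero.1 h2 with h5 | h5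
      · exact h5
      · exact absurd h5 h3
    exact_mod_cast h4
  have h5 : ∀ n : ℕ, 1 ≤ n → ∑ b ∈ Finset.range B, d b * rt (2 * b + 1) n + e = 0 := by
    intro n hn
    have h2 := key n hn
    have e1 : ∑ a ∈ Finset.range A, ((c a : ℝ) * Z (2 * a + 3)) * (n : ℝ) ^ (2 * a + 3) = 0 := by
      apply Finset.sum_eq_zero
      intro a ha
      rw [h1 a (Finset.mem_range.1 ha)]; simp
    have e2 : ∑ a ∈ Finset.range A, c a * rs (2 * a + 3) n = 0 := by
      apply Finset.sum_eq_zero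
      intro a ha
      rw [h1 a (Finset.mem_range.1 ha)]; simp
    rw [e1, e2, zero_sub] at h2
    have h3 : -∑ b ∈ Finset.range B, d b * rt (2 * b + 1) n - e = 0 := by exact_mod_cast h2.symm
    linarith
  have h6 : e = 0 := by
    have h7 := h5 1 le_rfl
    have e1 : ∑ b ∈ Finset.range B, d b * rt (2 * b + 1) 1 = 0 := by
      apply Finset.sum_eq_zero
      intro b _
      have : rt (2 * b + 1) 1 = 0 := by
        unfold rt rs
        simp
      rw [this, mul_zero]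
    rw [e1, zero_add] at h7
    exact h7
  refine ⟨h1, tails_indep B d (fun n hn => ?_), h6⟩
  have h7 := h5 n hn
  rw [h6, add_zero] at h7
  exact h7

theorem main (A B : ℕ) (c d : ℕ → ℚ) (e : ℚ)
    (h : ¬ ((∀ a < A, c a = 0) ∧ (∀ b < B, d b = 0) ∧ e = 0)) :
    ∃ D : ℝ, 1 < D ∧ ∀ᶠ k : ℕ in atTop, D⁻¹ ^ k < |S A B c d e k| := by
  have h1 : ∃ n, G A B c d e n ≠ 0 := by
    by_contra h2
    push Not at h2
    exact h (G_ne A B c d e h2)
  obtain ⟨D, hD, h2⟩ := lead_lower (G A B c d e) _ _ (G_bound A B c d e) h1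
  refine ⟨D, hD, ?_⟩
  filter_upwards [h2, eventually_ge_atTop (2 * A + 2 * B + 10)] with k hk1 hk2
  rw [(hasSum_S A B c d e hk2).tsum_eq] at hk1
  exact hk1

end Pool.Agent.TH975.DZ
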