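import Pool.Agent.TH975.DZ.Lead

/-! Double zeta values as Dirichlet series in the weight. -/

namespace Pool.Agent.TH975.DZ

open Filter Topology

/-- the double zeta value `ζ(s, t) = ∑_{m > n ≥ 1} m^(-s) n^(-t)`, with `n = p.2 + 1`,
`m = p.1 + p.2 + 2` -/
noncomputable def dz (s t : ℕ) : ℝ :=
  ∑' p : ℕ × ℕ, (1 : ℝ) / ((((p.1 + p.2 + 2 : ℕ) : ℝ) ^ s) * (((p.2 + 1 : ℕ) : ℝ) ^ t))

/-- `ζ(s)` -/
noncomputable def Z (s : ℕ) : ℝ := ∑' n : ℕ, (1 : ℝ) / ((n : ℝ) + 1) ^ s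

/-- the harmonic sums `∑_{m = 1}^N m^(-s)` -/
noncomputable def hh (s N : ℕ) : ℝ := ∑ m ∈ Finset.range N, (1 : ℝ) / ((m : ℝ) + 1) ^ s

theorem summable_Z {s : ℕ} (hs : 2 ≤ s) : Summable (fun n : ℕ => (1 : ℝ) / ((n : ℝ) + 1) ^ s) := by
  have h := (summable_nat_add_iff 1).2 (Real.summable_one_div_nat_pow.2 (by omega : 1 < s))
  refine h.congr (fun n => ?_)
  push_cast; rfl

theorem summable_prod : Summable (fun p : ℕ × ℕ => ((1 : ℝ) / ((p.1 : ℝ) + 1) ^ 2) *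
    ((1 : ℝ) / ((p.2 : ℝ) + 1) ^ 2)) :=
  summable_sq.mul_of_nonneg summable_sq (fun _ => by positivity) (fun _ => by positivity)

theorem summable_dz {s t : ℕ} (h : (2 ≤ s ∧ 2 ≤ t) ∨ 4 ≤ s) : Summable (fun p : ℕ × ℕ =>
    (1 : ℝ) / ((((p.1 + p.2 + 2 : ℕ) : ℝ) ^ s) * (((p.2 + 1 : ℕ) : ℝ) ^ t))) := by
  refine Summable.of_nonneg_of_le (fun p => by positivity) (fun p => ?_) summable_prod
  rw [one_div_mul_one_div]
  apply one_div_le_one_div_of_le (by positivity)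
  push_cast
  have a0 : (0 : ℝ) ≤ p.1 := Nat.cast_nonneg _
  have b0 : (0 : ℝ) ≤ p.2 := Nat.cast_nonneg _
  have hm1 : (1 : ℝ) ≤ (p.1 : ℝ) + p.2 + 2 := by linarith
  have hn1 : (1 : ℝ) ≤ (p.2 : ℝ) + 1 := by linarith
  rcases h with ⟨h1, h2⟩ | h1
  · apply mul_le_mul _ _ (by positivity) (by positivity)
    · calc ((p.1 : ℝ) + 1) ^ 2 ≤ ((p.1 : ℝ) + p.2 + 2) ^ 2 := by
            apply pow_le_pow_left₀ (by positivity); linarith
        _ ≤ _ := pow_le_pow_right₀ hm1 h1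
    · exact pow_le_pow_right₀ hn1 h2
  · calc ((p.1 : ℝ) + 1) ^ 2 * ((p.2 : ℝ) + 1) ^ 2
        ≤ ((p.1 : ℝ) + p.2 + 2) ^ 2 * ((p.1 : ℝ) + p.2 + 2) ^ 2 := by
          apply mul_le_mul _ _ (by positivity) (by positivity)
          · apply pow_le_pow_left₀ (by positivity); linarith
          · apply pow_le_pow_left₀ (by positivity); linarith
      _ = ((p.1 : ℝ) + p.2 + 2) ^ 4 := by ring
      _ ≤ ((p.1 : ℝ) + p.2 + 2) ^ s := pow_le_pow_right₀ hm1 h1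
      _ ≤ ((p.1 : ℝ) + p.2 + 2) ^ s * ((p.2 : ℝ) + 1) ^ t :=
          le_mul_of_one_le_right (by positivity) (one_le_pow₀ hn1)

theorem tail_eq {s : ℕ} (hs : 2 ≤ s) (j : ℕ) :
    ∑' i : ℕ, (1 : ℝ) / (((i + j + 2 : ℕ) : ℝ) ^ s) = Z s - hh s (j + 1) := by
  have h := (summable_Z hs).sum_add_tsum_nat_add (j + 1)
  have h2 : ∑' i : ℕ, (1 : ℝ) / (((i + j + 2 : ℕ) : ℝ) ^ s) =
      ∑' i : ℕ, (1 : ℝ) / (((i + (j + 1) : ℕ) : ℝ) + 1) ^ s := by
    congr 1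
    funext i
    push_cast
    ring_nf
  rw [h2]
  unfold Z hh
  linarith

/-- expansion in the smaller variable -/
theorem dz_head {s t : ℕ} (hs : 2 ≤ s) (ht : 2 ≤ t) :
    HasSum (fun j : ℕ => (Z s - hh s (j + 1)) / ((j : ℝ) + 1) ^ t) (dz s t) := by
  have h := (summable_dz (s := s) (t := t) (Or.inl ⟨hs, ht⟩)).hasSum
  have h' := (Equiv.prodComm ℕ ℕ).hasSum_iff.2 h
  have h2 := h'.prod_fiberwise (g := fun j : ℕ => (Z s - hh s (j + 1)) / ((j : ℝ) + 1) ^ t) (by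
    intro j
    have hsm : Summable (fun i : ℕ => (1 : ℝ) / (((i + j + 2 : ℕ) : ℝ) ^ s)) := by
      have := (summable_nat_add_iff (j + 1)).2 (summable_Z hs)
      refine this.congr (fun n => ?_)
      push_cast
      ring_nf
    have h3 := hsm.hasSum.mul_right ((1 : ℝ) / ((j : ℝ) + 1) ^ t)
    rw [tail_eq hs j] at h3
    have e : (fun c => ((fun p : ℕ × ℕ => (1 : ℝ) / ((((p.1 + p.2 + 2 : ℕ) : ℝ) ^ s) *
        (((p.2 + 1 : ℕ) : ℝ) ^ t))) ∘ (Equiv.prodComm ℕ ℕ)) (j, c)) =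
        fun i : ℕ => (1 : ℝ) / (((i + j + 2 : ℕ) : ℝ) ^ s) * ((1 : ℝ) / ((j : ℝ) + 1) ^ t) := by
      funext i
      show (1 : ℝ) / ((((i + j + 2 : ℕ) : ℝ) ^ s) * (((j + 1 : ℕ) : ℝ) ^ t)) = _
      rw [one_div_mul_one_div]
      push_cast
      rfl
    rw [e, div_eq_mul_one_div (Z s - _)]
    exact h3)
  exact h2

/-- expansion in the larger variable -/
theorem dz_tail {s t : ℕ} (hs : 4 ≤ s) :
    HasSum (fun m : ℕ => hh t m / ((m : ℝ) + 1) ^ s) (dz s t) := by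
  have h := (summable_dz (s := s) (t := t) (Or.inr hs)).hasSum
  have h' := (Finset.HasAntidiagonal.sigmaAntidiagonalEquivProd (A := ℕ)).hasSum_iff.2 h
  have h2 := h'.sigma (g := fun m : ℕ => hh t (m + 1) / ((m : ℝ) + 2) ^ s) (by
    intro m
    have h3 := hasSum_fintype (fun c : Finset.HasAntidiagonal.antidiagonal m =>
      (1 : ℝ) / ((((c.1.1 + c.1.2 + 2 : ℕ) : ℝ) ^ s) * (((c.1.2 + 1 : ℕ) : ℝ) ^ t)))
    have e : hh t (m + 1) / ((m : ℝ) + 2) ^ s = ∑ c : Finset.HasAntidiagonal.antidiagonal m,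
        (1 : ℝ) / ((((c.1.1 + c.1.2 + 2 : ℕ) : ℝ) ^ s) * (((c.1.2 + 1 : ℕ) : ℝ) ^ t)) := by
      rw [Finset.sum_coe_sort (Finset.HasAntidiagonal.antidiagonal m) (fun c : ℕ × ℕ =>
        (1 : ℝ) / ((((c.1 + c.2 + 2 : ℕ) : ℝ) ^ s) * (((c.2 + 1 : ℕ) : ℝ) ^ t)))]
      rw [Finset.Nat.sum_antidiagonal_eq_sum_range_succ_mk]
      unfold hh
      rw [← Finset.sum_range_reflect, Finset.sum_div]
      apply Finset.sum_congr rfl
      intro j hj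
      rw [Finset.mem_range] at hj
      have e1 : j + (m - j) = m := by omega
      have e2 : m + 1 - 1 - j = m - j := by omega
      rw [e1, e2]
      push_cast
      rw [div_div, mul_comm]
    rw [e]
    exact h3)
  have h4 : HasSum (fun m : ℕ => (fun m : ℕ => hh t m / ((m : ℝ) + 1) ^ s) (m + 1)) (dz s t) := by
    have e : (fun m : ℕ => (fun m : ℕ => hh t m / ((m : ℝ) + 1) ^ s) (m + 1)) =
        fun m : ℕ => hh t (m + 1) / ((m : ℝ) + 2) ^ s := by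
      funext m
      show hh t (m + 1) / (((m + 1 : ℕ) : ℝ) + 1) ^ s = _
      have : ((m + 1 : ℕ) : ℝ) + 1 = (m : ℝ) + 2 := by push_cast; ring
      rw [this]
    rw [e]
    exact h2
  have h5 := (hasSum_nat_add_iff (f := fun m : ℕ => hh t m / ((m : ℝ) + 1) ^ s) 1).1 h4
  simpa [hh] using h5

end Pool.Agent.TH975.DZ
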